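import Pool.Agent.W700.KK.Fin
import Pool.Agent.W700.PS.Fin
import Pool.Agent.W37.PS.T1

/-!
# Algebras of approximable and of compact operators that are not spanned by products

There is a complex Banach space `E` with `F(E)² ≠ F(E)`, and there is a complex Banach space `E` with
`K(E)² ≠ K(E)`.
-/

set_option autoImplicit false

namespace Pool.Agent.Results.MP_d957af_an.NotSpannedByProducts

section
variable (E : Type) [NormedAddCommGroup E] [NormedSpace ℂ E]

/-- `F(E)`: the approximable operators on `E`, the closure in operator norm of the bounded operators with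
finite-dimensional range. -/
def approximable : Set (E →L[ℂ] E) :=
  closure {S : E →L[ℂ] E | FiniteDimensional ℂ (LinearMap.range (S : E →ₗ[ℂ] E))}

/-- `K(E)`: the compact operators on `E`. -/
def compact : Set (E →L[ℂ] E) := {S : E →L[ℂ] E | IsCompactOperator S}

variable {E}

/-- `A²`: the linear span of the products `S T` with `S, T ∈ A` (finite linear combinations, no closure). -/
def square (A : Set (E →L[ℂ] E)) : Submodule ℂ (E →L[ℂ] E) :=
  Submodule.span ℂ {W : E →L[ℂ] E | ∃ S ∈ A, ∃ T ∈ A, W = S.comp T}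

end

/-- There is a complex Banach space `E` with `F(E)² ≠ F(E)`, and there is a complex Banach space `E` with
`K(E)² ≠ K(E)`. -/
theorem result :
    (∃ (E : Type) (_ : NormedAddCommGroup E) (_ : NormedSpace ℂ E) (_ : CompleteSpace E),
      (square (approximable E) : Set (E →L[ℂ] E)) ≠ approximable E) ∧
    (∃ (E : Type) (_ : NormedAddCommGroup E) (_ : NormedSpace ℂ E) (_ : CompleteSpace E),
      (square (compact E) : Set (E →L[ℂ] E)) ≠ compact E) := by
  refine ⟨?_, ?_⟩
  · obtain ⟨u, hu, hu2⟩ := W700.PS.final W37.PS.main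
    have key : ∀ a : W700.PS.PP →L[ℂ] W700.PS.PP,
        a ∈ approximable W700.PS.PP ↔ a ∈ (W700.PS.FRk W700.PS.PP).topologicalClosure := by
      intro a
      have h1 : a ∈ approximable W700.PS.PP ↔ a ∈ closure {S : W700.PS.PP →L[ℂ] W700.PS.PP |
        FiniteDimensional ℂ (LinearMap.range (S : W700.PS.PP →ₗ[ℂ] W700.PS.PP))} := Iff.rfl
      rw [h1, ← W700.PS.FRk_eq]
      rfl
    refine ⟨W700.PS.PP, inferInstance, inferInstance, inferInstance, fun h => hu2 ?_⟩
    have h2 : u ∈ (square (approximable W700.PS.PP) : Set (W700.PS.PP →L[ℂ] W700.PS.PP)) := by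
      rw [h]
      exact (key u).2 hu
    refine Submodule.span_mono ?_ h2
    rintro U ⟨A, hA, B, hB, rfl⟩
    exact ⟨A, (key A).1 hA, B, (key B).1 hB, rfl⟩
  · obtain ⟨E, i1, i2, i3, T, hT, hT2⟩ := W700.KK.main
    refine ⟨E, i1, i2, i3, fun h => hT2 ?_⟩
    have h2 : T ∈ (square (compact E) : Set (E →L[ℂ] E)) := by
      rw [h]
      exact hT
    refine Submodule.span_mono ?_ h2
    rintro U ⟨A, hA, B, hB, rfl⟩
    exact ⟨A, B, hA, hB, rfl⟩

end Pool.Agent.Results.MP_d957af_an.NotSpannedByProducts
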